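import Mathlib

set_option autoImplicit false

/-!
# Extension of homomorphisms to finitely many algebraic elements
-/

namespace Pool.Agent.K4H2.MH

open Polynomial

universe u v w

/-- homomorphisms to algebraically closed fields extend to integral extensions -/
theorem exists_extension {A : Type u} {B : Type v} {Ω : Type w} [CommRing A] [CommRing B]
    [Algebra A B] [Field Ω] [IsAlgClosed Ω] (hint : Algebra.IsIntegral A B)
    (hinj : Function.Injective (algebraMap A B)) (ψ : A →+* Ω) :
    ∃ φ : B →+* Ω, ∀ a, φ (algebraMap A B a) = ψ a := by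
  have hP : (RingHom.ker ψ).IsPrime := RingHom.ker_isPrime ψ
  obtain ⟨Q, -, hQ, hQP⟩ := Ideal.exists_ideal_over_prime_of_isIntegral (RingHom.ker ψ)
    (⊥ : Ideal B) (by
      intro x hx
      rw [Ideal.mem_comap, Ideal.mem_bot] at hx
      have : x = 0 := hinj (by rw [hx, map_zero])
      rw [this]
      exact Ideal.zero_mem _)
  have hker : ∀ a, algebraMap A B a ∈ Q ↔ ψ a = 0 := by
    intro a
    rw [← Ideal.mem_comap, hQP, RingHom.mem_ker]
  -- the quotient domain
  let P := RingHom.ker ψ
  let f : A ⧸ P →+* B ⧸ Q := Ideal.quotientMap Q (algebraMap A B) (by rw [hQP])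
  let g : A ⧸ P →+* Ω := Ideal.Quotient.lift P ψ (fun a ha => ha)
  have hf : Function.Injective f := by
    apply Ideal.quotientMap_injective' (by rw [hQP])
  have hg : Function.Injective g := RingHom.kerLift_injective ψ
  have : IsDomain (A ⧸ P) := Ideal.Quotient.isDomain P
  have : IsDomain (B ⧸ Q) := Ideal.Quotient.isDomain Q
  let _ : Algebra (A ⧸ P) (B ⧸ Q) := f.toAlgebra
  let _ : Algebra (A ⧸ P) Ω := g.toAlgebra
  have : FaithfulSMul (A ⧸ P) (B ⧸ Q) := (faithfulSMul_iff_algebraMap_injective _ _).2 hf
  have : FaithfulSMul (A ⧸ P) Ω := (faithfulSMul_iff_algebraMap_injective _ _).2 hg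
  have h1 : Algebra.IsIntegral (A ⧸ P) (B ⧸ Q) := by
    constructor
    intro x
    obtain ⟨b, rfl⟩ := Ideal.Quotient.mk_surjective x
    obtain ⟨p, hp, hp'⟩ := hint.isIntegral b
    refine ⟨p.map (Ideal.Quotient.mk P), hp.map _, ?_⟩
    rw [eval₂_map]
    have e : (algebraMap (A ⧸ P) (B ⧸ Q)).comp (Ideal.Quotient.mk P) =
        (Ideal.Quotient.mk Q).comp (algebraMap A B) := by
      ext a
      rfl
    rw [e, ← Polynomial.hom_eval₂, hp', map_zero]
  have h2 : Algebra.IsAlgebraic (A ⧸ P) (B ⧸ Q) := h1.isAlgebraic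
  let l : (B ⧸ Q) →ₐ[A ⧸ P] Ω := IsAlgClosed.lift
  refine ⟨l.toRingHom.comp (Ideal.Quotient.mk Q), fun a => ?_⟩
  have h3 : Ideal.Quotient.mk Q (algebraMap A B a) =
      algebraMap (A ⧸ P) (B ⧸ Q) (Ideal.Quotient.mk P a) := rfl
  show l (Ideal.Quotient.mk Q (algebraMap A B a)) = ψ a
  rw [h3, l.commutes]
  rfl

/-- finitely many algebraic elements of a field extension: away from the zeros of one element, all
homomorphisms to algebraically closed fields extend to a ring which contains them -/
theorem exists_subring {A : Type u} {L : Type v} (Ω : Type w) [CommRing A] [IsDomain A] [Field L]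
    [Algebra A L] (hinj : Function.Injective (algebraMap A L)) [Field Ω] [IsAlgClosed Ω]
    (E : Finset L) (hE : ∀ e ∈ E, IsAlgebraic A e) :
    ∃ s : A, s ≠ 0 ∧ ∃ B : Subring L, (∀ e ∈ E, e ∈ B) ∧ ∃ hA : ∀ a, algebraMap A L a ∈ B,
      ∀ ψ : A →+* Ω, ψ s ≠ 0 → ∃ φ : B →+* Ω, ∀ a, φ ⟨algebraMap A L a, hA a⟩ = ψ a := by
  classical
  choose! p hp0 hp using hE
  let s : A := ∏ e ∈ E, (p e).leadingCoeff
  have hs : s ≠ 0 := Finset.prod_ne_zero_iff.2 fun e he =>
    leadingCoeff_ne_zero.2 (hp0 e he)
  have hsL : IsUnit (algebraMap A L s) := by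
    rw [isUnit_iff_ne_zero]
    intro h
    exact hs (hinj (by rw [h, map_zero]))
  let As := Localization.Away s
  let j : As →+* L := IsLocalization.Away.lift s hsL
  have hj : ∀ a, j (algebraMap A As a) = algebraMap A L a := fun a =>
    IsLocalization.Away.lift_eq s hsL a
  have hjinj : Function.Injective j := by
    rw [injective_iff_map_eq_zero]
    intro x hx
    obtain ⟨n, a, ha⟩ := IsLocalization.Away.surj s x
    have h1 : j (x * algebraMap A As s ^ n) = 0 := by rw [map_mul, hx, zero_mul]
    rw [ha, hj] at h1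
    have h2 : a = 0 := hinj (by rw [h1, map_zero])
    rw [h2, map_zero] at ha
    have h3 : IsUnit (algebraMap A As s ^ n) := (IsLocalization.Away.algebraMap_isUnit s).pow n
    exact (h3.mul_left_eq_zero).1 ha
  let _ : Algebra As L := j.toAlgebra
  have hint : ∀ e ∈ E, IsIntegral As e := by
    intro e he
    have hu : IsUnit (algebraMap A As (p e).leadingCoeff) := by
      have h1 : IsUnit (algebraMap A As s) := IsLocalization.Away.algebraMap_isUnit s
      rw [map_prod] at h1
      exact isUnit_of_dvd_unit (Finset.dvd_prod_of_mem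
        (fun e => algebraMap A As (p e).leadingCoeff) he) h1
    obtain ⟨u, hu⟩ := hu
    refine ⟨C (↑u⁻¹ : As) * (p e).map (algebraMap A As), ?_, ?_⟩
    · apply monic_of_natDegree_le_of_coeff_eq_one (p e).natDegree
      · refine (natDegree_C_mul_le _ _).trans natDegree_map_le
      · rw [coeff_C_mul, coeff_map, coeff_natDegree, ← hu, Units.inv_mul]
    · rw [eval₂_mul, eval₂_map]
      have e1 : (algebraMap As L).comp (algebraMap A As) = algebraMap A L := by
        ext a
        exact hj a
      rw [e1]
      have h2 : eval₂ (algebraMap A L) e (p e) = 0 := hp e he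
      rw [h2, mul_zero]
  let B' := Algebra.adjoin As (E : Set L)
  have hB' : Algebra.IsIntegral As B' := Algebra.IsIntegral.adjoin hint
  refine ⟨s, hs, B'.toSubring, fun e he => Algebra.subset_adjoin he, fun a => ?_, fun ψ hψ => ?_⟩
  · have := B'.algebraMap_mem (algebraMap A As a)
    have e1 : algebraMap As L (algebraMap A As a) = algebraMap A L a := hj a
    rw [e1] at this
    exact this
  · have hinj' : Function.Injective (algebraMap As B') := by
      intro x y hxy
      have := congrArg (fun z : B' => (z : L)) hxy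
      exact hjinj this
    obtain ⟨φ, hφ⟩ := exists_extension hB' hinj'
      (IsLocalization.Away.lift s (isUnit_iff_ne_zero.2 hψ) : As →+* Ω)
    refine ⟨φ, fun a => ?_⟩
    have h1 := hφ (algebraMap A As a)
    rw [IsLocalization.Away.lift_eq] at h1
    rw [← h1]
    congr 1
    apply Subtype.ext
    exact (hj a).symm

end Pool.Agent.K4H2.MH
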