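import Mathlib
import Pool.Agent.K4H2.MH.Spec

set_option autoImplicit false

/-!
# Systems of polynomial equations over a domain and their specializations
-/

namespace Pool.Agent.K4H2.MH

open MvPolynomial

universe u w

variable {A : Type u} [CommRing A] [IsDomain A] {Ω : Type w} [Field Ω] [IsAlgClosed Ω]
  {τ : Type} [Fintype τ]

/-- `x` is a solution of the system `f = 0` (`f ∈ I`), `g ≠ 0` specialized by `ψ` -/
def Sol {A : Type u} [CommRing A] {Ω : Type w} [Field Ω] {τ : Type} (I : Set (MvPolynomial τ A))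
    (g : MvPolynomial τ A) (ψ : A →+* Ω) (x : τ → Ω) : Prop :=
  (∀ f ∈ I, eval₂ ψ x f = 0) ∧ eval₂ ψ x g ≠ 0

lemma isAlgebraic_frac : Algebra.IsAlgebraic A (FractionRing A) :=
  (IsFractionRing.comap_isAlgebraic_iff (A := A) (K := FractionRing A) (C := FractionRing A)).2
    inferInstance

lemma isAlgebraic_closure : Algebra.IsAlgebraic A (AlgebraicClosure (FractionRing A)) :=
  (IsFractionRing.comap_isAlgebraic_iff (A := A) (K := FractionRing A)
    (C := AlgebraicClosure (FractionRing A))).2 inferInstance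

/-- the generic point of the system -/
theorem generic_solution (I : Set (MvPolynomial τ A)) (g : MvPolynomial τ A)
    (x : τ → AlgebraicClosure (FractionRing A)) (hI : ∀ f ∈ I, aeval x f = 0)
    (hg : aeval x g ≠ 0) :
    ∃ s : A, s ≠ 0 ∧ ∃ P : τ → Polynomial A, ∀ ψ : A →+* Ω, ψ s ≠ 0 → ∃ z : τ → Ω,
      Sol I g ψ z ∧ ∀ i, (P i).map ψ ≠ 0 ∧ ((P i).map ψ).eval (z i) = 0 := by
  classical
  have halg : Algebra.IsAlgebraic A (AlgebraicClosure (FractionRing A)) := isAlgebraic_closure
  have hinj : Function.Injective (algebraMap A (AlgebraicClosure (FractionRing A))) := by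
    rw [IsScalarTower.algebraMap_eq A (FractionRing A) (AlgebraicClosure (FractionRing A))]
    exact (algebraMap (FractionRing A) (AlgebraicClosure (FractionRing A))).injective.comp
      (IsFractionRing.injective A (FractionRing A))
  choose P hP0 hP using fun i => halg.isAlgebraic (x i)
  obtain ⟨s, hs, B, hB, hA, hext⟩ := exists_subring Ω hinj
    (Finset.univ.image x ∪ {(aeval x g)⁻¹}) (fun e _ => halg.isAlgebraic e)
  refine ⟨s * ∏ i, (P i).leadingCoeff, mul_ne_zero hs (Finset.prod_ne_zero_iff.2 fun i _ =>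
    Polynomial.leadingCoeff_ne_zero.2 (hP0 i)), P, fun ψ hψ => ?_⟩
  rw [map_mul, map_prod] at hψ
  obtain ⟨φ, hφ⟩ := hext ψ (left_ne_zero_of_mul hψ)
  have hxB : ∀ i, x i ∈ B := fun i => hB _ (Finset.mem_union_left _
    (Finset.mem_image_of_mem x (Finset.mem_univ i)))
  have hgB : (aeval x g)⁻¹ ∈ B := hB _ (Finset.mem_union_right _ (Finset.mem_singleton_self _))
  let ι : A →+* B := (algebraMap A (AlgebraicClosure (FractionRing A))).codRestrict B hA
  let xB : τ → B := fun i => ⟨x i, hxB i⟩
  have hφι : φ.comp ι = ψ := by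
    ext a
    exact hφ a
  have hsub : B.subtype.comp ι = algebraMap A (AlgebraicClosure (FractionRing A)) := by
    ext a
    rfl
  have hval : ∀ f : MvPolynomial τ A, ((eval₂ ι xB f : B) : AlgebraicClosure (FractionRing A)) =
      aeval x f := by
    intro f
    have h := eval₂_comp_left B.subtype ι xB f
    rw [hsub] at h
    exact h
  have hspec : ∀ f : MvPolynomial τ A, φ (eval₂ ι xB f) = eval₂ ψ (fun i => φ (xB i)) f := by
    intro f
    have h := eval₂_comp_left φ ι xB f
    rw [hφι] at h
    exact h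
  refine ⟨fun i => φ (xB i), ⟨fun f hf => ?_, ?_⟩, fun i => ⟨?_, ?_⟩⟩
  · rw [← hspec]
    have h : eval₂ ι xB f = 0 := by
      apply Subtype.ext
      rw [hval, hI f hf]
      rfl
    rw [h, map_zero]
  · rw [← hspec]
    have h : eval₂ ι xB g * ⟨(aeval x g)⁻¹, hgB⟩ = 1 := by
      apply Subtype.ext
      show ((eval₂ ι xB g : B) : AlgebraicClosure (FractionRing A)) * (aeval x g)⁻¹ = 1
      rw [hval, mul_inv_cancel₀ hg]
    intro h0
    have h1 := congrArg φ h
    rw [map_mul, h0, zero_mul, map_one] at h1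
    exact zero_ne_one h1
  · intro h
    have h1 := congrArg (fun q => Polynomial.coeff q (P i).natDegree) h
    simp only [Polynomial.coeff_map, Polynomial.coeff_natDegree, Polynomial.coeff_zero] at h1
    exact Finset.prod_ne_zero_iff.1 (right_ne_zero_of_mul hψ) i (Finset.mem_univ i) h1
  · rw [Polynomial.eval_map]
    have h1 : φ (Polynomial.eval₂ ι (xB i) (P i)) = Polynomial.eval₂ ψ (φ (xB i)) (P i) := by
      rw [Polynomial.hom_eval₂, hφι]
    rw [← h1]
    have h2 : Polynomial.eval₂ ι (xB i) (P i) = 0 := by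
      apply Subtype.ext
      have h3 := Polynomial.hom_eval₂ (P i) ι B.subtype (xB i)
      rw [hsub] at h3
      refine Eq.trans h3 ?_
      exact hP i
    rw [h2, map_zero]

/-- no generic point: no solutions for almost all specializations -/
theorem generic_empty (I : Set (MvPolynomial τ A)) (g : MvPolynomial τ A)
    (h : ¬ ∃ x : τ → AlgebraicClosure (FractionRing A), (∀ f ∈ I, aeval x f = 0) ∧
      aeval x g ≠ 0) :
    ∃ s : A, s ≠ 0 ∧ ∀ ψ : A →+* Ω, ψ s ≠ 0 → ¬ ∃ z : τ → Ω, Sol I g ψ z := by
  classical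
  have hinj : Function.Injective (algebraMap A (FractionRing A)) :=
    IsFractionRing.injective A (FractionRing A)
  let J : Ideal (MvPolynomial τ (FractionRing A)) :=
    Ideal.span ((MvPolynomial.map (algebraMap A (FractionRing A))) '' I)
  have haev : ∀ (x : τ → AlgebraicClosure (FractionRing A)) (f : MvPolynomial τ A),
      aeval x (MvPolynomial.map (algebraMap A (FractionRing A)) f) = aeval x f := by
    intro x f
    rw [aeval_map_algebraMap]
  have hrad : MvPolynomial.map (algebraMap A (FractionRing A)) g ∈ J.radical := by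
    rw [← vanishingIdeal_zeroLocus_eq_radical (K := AlgebraicClosure (FractionRing A)) J,
      mem_vanishingIdeal_iff]
    intro x hx
    by_contra hne
    rw [haev] at hne
    refine h ⟨x, fun f hf => ?_, hne⟩
    rw [← haev]
    exact (mem_zeroLocus_iff.1 hx) _ (Ideal.subset_span ⟨f, hf, rfl⟩)
  obtain ⟨N, hN⟩ := hrad
  obtain ⟨n, a, b, hab⟩ := (Submodule.mem_span_set').1 hN
  choose f hfI hf using fun i : Fin n => (b i).2
  have halg : Algebra.IsAlgebraic A (FractionRing A) := isAlgebraic_frac
  obtain ⟨s, hs, B, hB, hA, hext⟩ := exists_subring Ω hinj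
    (Finset.univ.biUnion fun i : Fin n => (a i).coeffs) (fun e _ => halg.isAlgebraic e)
  refine ⟨s, hs, fun ψ hψ => ?_⟩
  obtain ⟨φ, hφ⟩ := hext ψ hψ
  rintro ⟨z, hz1, hz2⟩
  let ι : A →+* B := (algebraMap A (FractionRing A)).codRestrict B hA
  have hφι : φ.comp ι = ψ := by
    ext a
    exact hφ a
  have hsub : B.subtype.comp ι = algebraMap A (FractionRing A) := by
    ext a
    rfl
  have hlift : ∀ i, ∃ a' : MvPolynomial τ B, MvPolynomial.map B.subtype a' = a i := by
    intro i
    have : a i ∈ Set.range (MvPolynomial.map (σ := τ) B.subtype) := by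
      rw [mem_range_map_iff_coeffs_subset]
      intro c hc
      have : c ∈ B := hB c (Finset.mem_biUnion.2 ⟨i, Finset.mem_univ i, hc⟩)
      exact ⟨⟨c, this⟩, rfl⟩
    exact this
  choose a' ha' using hlift
  have hid : (MvPolynomial.map ι g) ^ N = ∑ i, a' i * MvPolynomial.map ι (f i) := by
    apply MvPolynomial.map_injective B.subtype Subtype.val_injective
    rw [map_pow, map_sum, MvPolynomial.map_map, hsub, ← hab]
    apply Finset.sum_congr rfl
    intro i _
    rw [map_mul, ha', MvPolynomial.map_map, hsub, hf i]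
    rfl
  have h1 := congrArg (eval₂Hom φ z) hid
  have hev : ∀ q : MvPolynomial τ A, eval₂Hom φ z (MvPolynomial.map ι q) = eval₂ ψ z q := by
    intro q
    show eval₂ φ z (MvPolynomial.map ι q) = eval₂ ψ z q
    rw [eval₂_map, hφι]
  rw [map_pow, map_sum, hev] at h1
  have h2 : ∑ i, eval₂Hom φ z (a' i * MvPolynomial.map ι (f i)) = 0 := by
    apply Finset.sum_eq_zero
    intro i _
    rw [map_mul, hev, hz1 (f i) (hfI i), mul_zero]
  rw [h2] at h1
  exact pow_ne_zero N hz2 h1

end Pool.Agent.K4H2.MH
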