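import Mathlib
import Pool.Agent.Helper259.AbsHt

set_option autoImplicit false

/-!
# Heights of algebraic numbers, of values of polynomials and of roots of polynomials
-/

namespace Pool.Agent.K4H2.MH

open Pool.Agent.Helper259.AbsHt

/-- the absolute logarithmic height of an algebraic number -/
noncomputable def ht (x : Qbar) : ℝ := absLogHeight ![1, x]

lemma ht_nonneg (x : Qbar) : 0 ≤ ht x := absLogHeight_nonneg _

lemma vec_ne (x : Qbar) : (![1, x] : Fin 2 → Qbar) ≠ 0 := by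
  intro h
  have := congrFun h 0
  simp at this

lemma ht_mul_le (x y : Qbar) : ht (x * y) ≤ ht x + ht y := by
  unfold ht
  rw [← absLogHeight_segre (vec_ne x) (vec_ne y)]
  have h := absLogHeight_comp_le (![((0 : Fin 2), (0 : Fin 2)), (1, 1)] : Fin 2 → Fin 2 × Fin 2)
    (fun a : Fin 2 × Fin 2 => (![1, x] : Fin 2 → Qbar) a.1 * (![1, y] : Fin 2 → Qbar) a.2)
  have e : (fun a : Fin 2 × Fin 2 => (![1, x] : Fin 2 → Qbar) a.1 * (![1, y] : Fin 2 → Qbar) a.2) ∘
      (![((0 : Fin 2), (0 : Fin 2)), (1, 1)] : Fin 2 → Fin 2 × Fin 2) = ![1, x * y] := by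
    funext i
    fin_cases i <;> simp
  rw [e] at h
  exact h

lemma ht_add_le : ∃ C : ℝ, 0 ≤ C ∧ ∀ x y : Qbar, ht (x + y) ≤ C + ht x + ht y := by
  obtain ⟨A, hA⟩ : ∃ A : Fin 2 × (Fin 2 × Fin 2) → Qbar, A = fun a =>
    if a.1 = 0 then (if a.2 = (0, 0) then 1 else 0) else
      (if a.2 = (0, 1) ∨ a.2 = (1, 0) then 1 else 0) := ⟨_, rfl⟩
  refine ⟨Real.log (Nat.card (Fin 2 × Fin 2)) + absLogHeight A, ?_, fun x y => ?_⟩
  · refine add_nonneg (Real.log_nonneg ?_) (absLogHeight_nonneg _)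
    simp
  · have h := absLogHeight_linear A
      (fun a : Fin 2 × Fin 2 => (![1, x] : Fin 2 → Qbar) a.1 * (![1, y] : Fin 2 → Qbar) a.2)
    rw [absLogHeight_segre (vec_ne x) (vec_ne y)] at h
    have e : (fun j : Fin 2 => ∑ i : Fin 2 × Fin 2, A (j, i) *
        ((![1, x] : Fin 2 → Qbar) i.1 * (![1, y] : Fin 2 → Qbar) i.2)) = ![1, x + y] := by
      funext j
      rw [Fintype.sum_prod_type]
      simp only [Fin.sum_univ_two, hA]
      fin_cases j <;> simp [add_comm]
    rw [e] at h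
    unfold ht
    linarith

open MvPolynomial in
/-- the height of the value of a polynomial -/
lemma ht_eval_le {σ : Type*} [Fintype σ] (p : MvPolynomial σ Qbar) :
    ∃ C : ℝ, 0 ≤ C ∧ ∀ y : σ → Qbar, ht (eval y p) ≤ C * (1 + ∑ j, ht (y j)) := by
  have hS : ∀ y : σ → Qbar, 0 ≤ ∑ j, ht (y j) := fun y => Finset.sum_nonneg fun j _ => ht_nonneg _
  obtain ⟨C₀, hC₀, hadd⟩ := ht_add_le
  induction p using MvPolynomial.induction_on with
  | C a =>
    refine ⟨ht a, ht_nonneg a, fun y => ?_⟩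
    rw [eval_C]
    nlinarith [hS y, ht_nonneg a]
  | add p q hp hq =>
    obtain ⟨C₁, h1, h1'⟩ := hp
    obtain ⟨C₂, h2, h2'⟩ := hq
    refine ⟨C₀ + C₁ + C₂, by linarith, fun y => ?_⟩
    rw [map_add]
    have h3 := hadd (eval y p) (eval y q)
    have h4 := h1' y
    have h5 := h2' y
    nlinarith [hS y]
  | mul_X p i hp =>
    obtain ⟨C₁, h1, h1'⟩ := hp
    refine ⟨C₁ + 1, by linarith, fun y => ?_⟩
    rw [map_mul, eval_X]
    have h3 := ht_mul_le (eval y p) (y i)
    have h4 := h1' y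
    have h5 : ht (y i) ≤ ∑ j, ht (y j) :=
      Finset.single_le_sum (f := fun j => ht (y j)) (fun j _ => ht_nonneg _) (Finset.mem_univ i)
    nlinarith [hS y]

open Polynomial in
/-- the height of a root of a polynomial whose coefficients are values of given polynomials -/
lemma ht_root_le {σ : Type*} [Fintype σ] (P : Polynomial (MvPolynomial σ Qbar)) :
    ∃ C : ℝ, 0 ≤ C ∧ ∀ (y : σ → Qbar) (α : Qbar), P.map (MvPolynomial.eval y) ≠ 0 →
      (P.map (MvPolynomial.eval y)).eval α = 0 → ht α ≤ C * (1 + ∑ j, ht (y j)) := by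
  have hS : ∀ y : σ → Qbar, 0 ≤ ∑ j, ht (y j) := fun y => Finset.sum_nonneg fun j _ => ht_nonneg _
  obtain ⟨C₁, hroot⟩ := absLogHeight_root P.natDegree
  choose C₂ hC₂ hC₂' using fun i : Fin (P.natDegree + 1) => ht_eval_le (P.coeff i)
  refine ⟨|C₁| + ∑ i, C₂ i, add_nonneg (abs_nonneg _) (Finset.sum_nonneg fun i _ => hC₂ i),
    fun y α h0 h1 => ?_⟩
  have h2 := hroot _ α h0 natDegree_map_le h1
  have h3 := absLogHeight_le_sum (Helper259.HtPoly.cv P.natDegree (P.map (MvPolynomial.eval y)))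
  have h4 : ∑ i, absLogHeight ![1, Helper259.HtPoly.cv P.natDegree (P.map (MvPolynomial.eval y)) i] ≤
      ∑ i, C₂ i * (1 + ∑ j, ht (y j)) := by
    apply Finset.sum_le_sum
    intro i _
    have h5 := hC₂' i y
    have h6 : Helper259.HtPoly.cv P.natDegree (P.map (MvPolynomial.eval y)) i =
        MvPolynomial.eval y (P.coeff i) := by
      simp [Helper259.HtPoly.cv, coeff_map]
    rw [h6]
    exact h5
  rw [← Finset.sum_mul] at h4
  have h5 : C₁ ≤ |C₁| := le_abs_self _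
  have h6 : 0 ≤ |C₁| := abs_nonneg _
  have h7 := hS y
  have h8 : (|C₁| + ∑ i, C₂ i) * (1 + ∑ j, ht (y j)) =
      |C₁| + |C₁| * ∑ j, ht (y j) + (∑ i, C₂ i) * (1 + ∑ j, ht (y j)) := by ring
  have h9 := mul_nonneg h6 h7
  have h10 : ht α = absLogHeight ![1, α] := rfl
  linarith

end Pool.Agent.K4H2.MH
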