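import Mathlib
import Pool.Agent.K4H2.MH.Gen
import Pool.Agent.K4H2.MH.Ht

set_option autoImplicit false

/-!
# Solutions of bounded height of polynomial systems depending on parameters
-/

namespace Pool.Agent.K4H2.MH

open MvPolynomial Pool.Agent.Helper259.AbsHt

variable {σ τ : Type} [Fintype σ] [Fintype τ]

/-- `x` is a solution of the system `f = 0` (`f ∈ I`), `g ≠ 0` with the parameters `y` -/
def SolAt {σ τ : Type} (I : Set (MvPolynomial (σ ⊕ τ) Qbar)) (g : MvPolynomial (σ ⊕ τ) Qbar)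
    (y : σ → Qbar) (x : τ → Qbar) : Prop :=
  (∀ f ∈ I, eval (Sum.elim y x) f = 0) ∧ eval (Sum.elim y x) g ≠ 0

/-- the claim for the parameters in the zero set of `J` -/
def Lifts {σ τ : Type} [Fintype σ] (I : Set (MvPolynomial (σ ⊕ τ) Qbar))
    (g : MvPolynomial (σ ⊕ τ) Qbar) (J : Ideal (MvPolynomial σ Qbar)) : Prop :=
  ∃ C : ℝ, 0 ≤ C ∧ ∀ y : σ → Qbar, (∀ p ∈ J, eval y p = 0) → (∃ x, SolAt I g y x) →
    ∃ x, SolAt I g y x ∧ ∀ i, ht (x i) ≤ C * (1 + ∑ j, ht (y j))

/-- substitution of the parameters -/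
noncomputable def sub {σ τ : Type} (J : Ideal (MvPolynomial σ Qbar)) :
    MvPolynomial (σ ⊕ τ) Qbar →+* MvPolynomial τ (MvPolynomial σ Qbar ⧸ J) :=
  eval₂Hom (C.comp ((Ideal.Quotient.mk J).comp C))
    (Sum.elim (fun j => C (Ideal.Quotient.mk J (X j))) X)

/-- evaluation of the parameters -/
noncomputable def spc {σ : Type} (J : Ideal (MvPolynomial σ Qbar)) (y : σ → Qbar)
    (hy : ∀ p ∈ J, eval y p = 0) : (MvPolynomial σ Qbar ⧸ J) →+* Qbar :=
  Ideal.Quotient.lift J (eval y) hy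

lemma spc_sub (J : Ideal (MvPolynomial σ Qbar)) (y : σ → Qbar) (hy : ∀ p ∈ J, eval y p = 0)
    (x : τ → Qbar) (f : MvPolynomial (σ ⊕ τ) Qbar) :
    eval₂ (spc J y hy) x (sub J f) = eval (Sum.elim y x) f := by
  have h : (eval₂Hom (spc J y hy) x).comp (sub J) = eval (Sum.elim y x) := by
    apply MvPolynomial.ringHom_ext
    · intro r
      simp [sub, spc]
    · rintro (j | i)
      · simp [sub, spc]
      · simp [sub]
  exact congrArg (fun F : MvPolynomial (σ ⊕ τ) Qbar →+* Qbar => F f) h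

lemma lifts_sup {I : Set (MvPolynomial (σ ⊕ τ) Qbar)} {g : MvPolynomial (σ ⊕ τ) Qbar}
    {J : Ideal (MvPolynomial σ Qbar)} (s : MvPolynomial σ Qbar)
    (h1 : Lifts I g (J ⊔ Ideal.span {s}))
    (h2 : ∃ C : ℝ, 0 ≤ C ∧ ∀ y : σ → Qbar, (∀ p ∈ J, eval y p = 0) → eval y s ≠ 0 →
      (∃ x, SolAt I g y x) → ∃ x, SolAt I g y x ∧ ∀ i, ht (x i) ≤ C * (1 + ∑ j, ht (y j))) :
    Lifts I g J := by
  obtain ⟨C₁, hC₁, h1⟩ := h1
  obtain ⟨C₂, hC₂, h2⟩ := h2
  refine ⟨max C₁ C₂, le_max_of_le_left hC₁, fun y hy hx => ?_⟩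
  have hS : 0 ≤ ∑ j, ht (y j) := Finset.sum_nonneg fun j _ => ht_nonneg _
  by_cases hs : eval y s = 0
  · obtain ⟨x, hx1, hx2⟩ := h1 y (by
      intro p hp
      obtain ⟨a, ha, b, hb, rfl⟩ := Submodule.mem_sup.1 hp
      obtain ⟨c, rfl⟩ := Ideal.mem_span_singleton'.1 hb
      rw [map_add, map_mul, hs, hy a ha, mul_zero, add_zero]) hx
    refine ⟨x, hx1, fun i => (hx2 i).trans ?_⟩
    exact mul_le_mul_of_nonneg_right (le_max_left _ _) (by linarith)
  · obtain ⟨x, hx1, hx2⟩ := h2 y hy hs hx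
    refine ⟨x, hx1, fun i => (hx2 i).trans ?_⟩
    exact mul_le_mul_of_nonneg_right (le_max_right _ _) (by linarith)

theorem lifts_all (I : Set (MvPolynomial (σ ⊕ τ) Qbar)) (g : MvPolynomial (σ ⊕ τ) Qbar)
    (J : Ideal (MvPolynomial σ Qbar)) : Lifts I g J := by
  have key : ∀ J : Ideal (MvPolynomial σ Qbar),
      (∀ K : Ideal (MvPolynomial σ Qbar), J < K → Lifts I g K) → Lifts I g J := ?_
  · exact IsNoetherian.induction (R := MvPolynomial σ Qbar) (M := MvPolynomial σ Qbar)
      (P := fun J => Lifts I g J) key J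
  clear J
  intro J ih
  by_cases htop : J = ⊤
  · refine ⟨0, le_rfl, fun y hy _ => ?_⟩
    have h := hy 1 (by rw [htop]; trivial)
    rw [map_one] at h
    exact absurd h one_ne_zero
  by_cases hprime : J.IsPrime
  · -- the prime case
    have hdom : IsDomain (MvPolynomial σ Qbar ⧸ J) := Ideal.Quotient.isDomain J
    by_cases hgen : ∃ x : τ → AlgebraicClosure (FractionRing (MvPolynomial σ Qbar ⧸ J)),
        (∀ f ∈ sub J '' I, aeval x f = 0) ∧ aeval x (sub J g) ≠ 0
    · obtain ⟨x, hx1, hx2⟩ := hgen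
      obtain ⟨s, hs, P, hP⟩ := generic_solution (Ω := Qbar) (sub J '' I) (sub J g) x hx1 hx2
      obtain ⟨s', rfl⟩ := Ideal.Quotient.mk_surjective s
      have hs' : s' ∉ J := fun h => hs (Ideal.Quotient.eq_zero_iff_mem.2 h)
      have hlift : ∀ i, ∃ Q : Polynomial (MvPolynomial σ Qbar),
          Q.map (Ideal.Quotient.mk J) = P i := fun i =>
        Polynomial.map_surjective _ Ideal.Quotient.mk_surjective (P i)
      choose Q hQ using hlift
      apply lifts_sup s'
      · apply ih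
        refine lt_of_le_of_ne le_sup_left fun h => hs' ?_
        rw [h]
        exact Ideal.mem_sup_right (Ideal.mem_span_singleton_self s')
      · choose C hC0 hC using fun i => ht_root_le (Q i)
        refine ⟨∑ i, C i, Finset.sum_nonneg fun i _ => hC0 i, fun y hy hys _ => ?_⟩
        have hS : 0 ≤ ∑ j, ht (y j) := Finset.sum_nonneg fun j _ => ht_nonneg _
        obtain ⟨z, hz, hz2⟩ := hP (spc J y hy) hys
        refine ⟨z, ⟨fun f hf => ?_, ?_⟩, fun i => ?_⟩
        · rw [← spc_sub J y hy]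
          exact hz.1 _ ⟨f, hf, rfl⟩
        · rw [← spc_sub J y hy]
          exact hz.2
        · have e : (Q i).map (eval y) = (P i).map (spc J y hy) := by
            rw [← hQ i, Polynomial.map_map]
            congr 1
          obtain ⟨h1, h2⟩ := hz2 i
          rw [← e] at h1 h2
          refine (hC i y (z i) h1 h2).trans ?_
          apply mul_le_mul_of_nonneg_right _ (by linarith)
          exact Finset.single_le_sum (f := C) (fun i _ => hC0 i) (Finset.mem_univ i)
    · obtain ⟨s, hs, hP⟩ := generic_empty (Ω := Qbar) (sub J '' I) (sub J g) hgen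
      obtain ⟨s', rfl⟩ := Ideal.Quotient.mk_surjective s
      have hs' : s' ∉ J := fun h => hs (Ideal.Quotient.eq_zero_iff_mem.2 h)
      apply lifts_sup s'
      · apply ih
        refine lt_of_le_of_ne le_sup_left fun h => hs' ?_
        rw [h]
        exact Ideal.mem_sup_right (Ideal.mem_span_singleton_self s')
      · refine ⟨0, le_rfl, fun y hy hys hx => ?_⟩
        exfalso
        obtain ⟨x, hx1, hx2⟩ := hx
        refine hP (spc J y hy) hys ⟨x, ?_, ?_⟩
        · rintro _ ⟨f, hf, rfl⟩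
          rw [spc_sub J y hy]
          exact hx1 f hf
        · rw [spc_sub J y hy]
          exact hx2
  · -- not prime
    have : ∃ a b : MvPolynomial σ Qbar, a * b ∈ J ∧ a ∉ J ∧ b ∉ J := by
      by_contra hcon
      push Not at hcon
      exact hprime ⟨htop, fun {a b} hab => by
        by_cases ha : a ∈ J
        · exact Or.inl ha
        · exact Or.inr (hcon a b hab ha)⟩
    obtain ⟨a, b, hab, ha, hb⟩ := this
    have hlt : ∀ c, c ∉ J → J < J ⊔ Ideal.span {c} := by
      intro c hc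
      refine lt_of_le_of_ne le_sup_left fun h => hc ?_
      rw [h]
      exact Ideal.mem_sup_right (Ideal.mem_span_singleton_self c)
    apply lifts_sup a (ih _ (hlt a ha))
    obtain ⟨C, hC, h⟩ := ih _ (hlt b hb)
    refine ⟨C, hC, fun y hy hya hx => h y ?_ hx⟩
    have hyb : eval y b = 0 := by
      have := hy _ hab
      rw [map_mul] at this
      exact (mul_eq_zero.1 this).resolve_left hya
    intro p hp
    obtain ⟨c, hc, d, hd, rfl⟩ := Submodule.mem_sup.1 hp
    obtain ⟨e, rfl⟩ := Ideal.mem_span_singleton'.1 hd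
    rw [map_add, map_mul, hyb, hy c hc, mul_zero, add_zero]

/-- **Solutions of bounded height.** For all parameters `y` for which the system is solvable, it has
a solution whose height is bounded linearly in the height of `y`. -/
theorem affine_lift (I : Set (MvPolynomial (σ ⊕ τ) Qbar)) (g : MvPolynomial (σ ⊕ τ) Qbar) :
    ∃ C : ℝ, 0 ≤ C ∧ ∀ y : σ → Qbar, (∃ x, SolAt I g y x) →
      ∃ x, SolAt I g y x ∧ ∀ i, ht (x i) ≤ C * (1 + ∑ j, ht (y j)) := by
  obtain ⟨C, hC, h⟩ := lifts_all I g ⊥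
  refine ⟨C, hC, fun y hx => h y ?_ hx⟩
  intro p hp
  rw [Ideal.mem_bot] at hp
  rw [hp, map_zero]

end Pool.Agent.K4H2.MH
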