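import Mathlib
import Pool.Agent.K4H2.MH.Aff

set_option autoImplicit false

/-!
# Quasi-projective sets, regular maps, and heights
-/

namespace Pool.Agent.K4H2.MH

open MvPolynomial Pool.Agent.Helper259.AbsHt
open scoped LinearAlgebra.Projectivization

/-- projective space over the algebraic numbers -/
abbrev PP (n : ℕ) : Type := ℙ Qbar (Fin (n + 1) → Qbar)

/-- the absolute logarithmic Weil height on projective space -/
noncomputable def height {n : ℕ} (P : PP n) : ℝ := absLogHeight P.rep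

/-- Zariski closed subsets of projective space: common zeros of homogeneous polynomials -/
def IsZariskiClosed {n : ℕ} (Z : Set (PP n)) : Prop :=
  ∃ S : Set (MvPolynomial (Fin (n + 1)) Qbar), (∀ F ∈ S, ∃ d : ℕ, F.IsHomogeneous d) ∧
    Z = {P : PP n | ∀ F ∈ S, eval P.rep F = 0}

/-- quasi-projective sets: Zariski closed minus Zariski closed -/
def IsQuasiProjective {n : ℕ} (X : Set (PP n)) : Prop :=
  ∃ Z W : Set (PP n), IsZariskiClosed Z ∧ IsZariskiClosed W ∧ X = Z \ W

/-- regular maps from a subset of projective space to a projective space: in a Zariski open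
neighbourhood of every point, the map is given by homogeneous polynomials of the same degree
without common zeros there -/
def IsRegularMap {n m : ℕ} (X : Set (PP n)) (φ : X → PP m) : Prop :=
  ∀ P : X, ∃ (W : Set (PP n)) (d : ℕ) (F : Fin (m + 1) → MvPolynomial (Fin (n + 1)) Qbar),
    IsZariskiClosed W ∧ (P : PP n) ∉ W ∧ (∀ j, (F j).IsHomogeneous d) ∧
    ∀ Q : X, (Q : PP n) ∉ W → ∃ h : (fun j => eval (Q : PP n).rep (F j)) ≠ 0,
      φ Q = Projectivization.mk Qbar (fun j => eval (Q : PP n).rep (F j)) h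

section basic

variable {n m : ℕ}

lemma hom_eval_smul {σ : Type*} {F : MvPolynomial σ Qbar} {d : ℕ} (hF : F.IsHomogeneous d)
    (c : Qbar) (v : σ → Qbar) : eval (c • v) F = c ^ d * eval v F := by
  rw [eval_eq, eval_eq, Finset.mul_sum]
  refine Finset.sum_congr rfl fun s hs => ?_
  have hdeg : s.degree = d := by
    have := hF (mem_support_iff.mp hs)
    rw [← this, Finsupp.degree_eq_weight_one]
    rfl
  simp only [Pi.smul_apply, smul_eq_mul, mul_pow]
  rw [Finset.prod_mul_distrib, Finset.prod_pow_eq_pow_sum]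
  have : ∑ i ∈ s.support, s i = d := hdeg
  rw [this]
  ring

lemma height_mk (v : Fin (n + 1) → Qbar) (h : v ≠ 0) :
    height (Projectivization.mk Qbar v h) = absLogHeight v := by
  obtain ⟨a, ha⟩ := Projectivization.exists_smul_eq_mk_rep Qbar v h
  unfold height
  rw [← ha]
  exact absLogHeight_smul v a.ne_zero

lemma height_nonneg (P : PP n) : 0 ≤ height P := absLogHeight_nonneg _

lemma eval_rep_iff {F : MvPolynomial (Fin (n + 1)) Qbar} {d : ℕ} (hF : F.IsHomogeneous d)
    (v : Fin (n + 1) → Qbar) (h : v ≠ 0) :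
    eval (Projectivization.mk Qbar v h).rep F = 0 ↔ eval v F = 0 := by
  obtain ⟨a, ha⟩ := Projectivization.exists_smul_eq_mk_rep Qbar v h
  rw [← ha]
  have : (a • v) = (a : Qbar) • v := rfl
  rw [this, hom_eval_smul hF]
  simp

/-- a point has a coordinate vector with a coordinate equal to one -/
lemma exists_norm (P : PP n) : ∃ (i : Fin (n + 1)) (v : Fin (n + 1) → Qbar) (h : v ≠ 0),
    v i = 1 ∧ P = Projectivization.mk Qbar v h := by
  obtain ⟨i, hi⟩ := Function.ne_iff.1 P.rep_nonzero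
  have hi' : P.rep i ≠ 0 := hi
  have h1 : ((P.rep i)⁻¹ • P.rep) i = 1 := by
    simp [hi']
  have h0 : (P.rep i)⁻¹ • P.rep ≠ 0 := by
    intro h
    rw [h] at h1
    simp at h1
  refine ⟨i, (P.rep i)⁻¹ • P.rep, h0, h1, ?_⟩
  conv_lhs => rw [← P.mk_rep]
  rw [Projectivization.mk_eq_mk_iff']
  refine ⟨P.rep i, ?_⟩
  rw [smul_smul, mul_inv_cancel₀ hi', one_smul]

/-- homogeneous forms of the same degree give the same point on proportional vectors -/
lemma mk_eval_eq {d : ℕ} {F : Fin (m + 1) → MvPolynomial (Fin (n + 1)) Qbar}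
    (hF : ∀ j, (F j).IsHomogeneous d) (v : Fin (n + 1) → Qbar) (h : v ≠ 0)
    (h1 : (fun j => eval (Projectivization.mk Qbar v h).rep (F j)) ≠ 0) :
    ∃ h2 : (fun j => eval v (F j)) ≠ 0,
      Projectivization.mk Qbar (fun j => eval (Projectivization.mk Qbar v h).rep (F j)) h1 =
      Projectivization.mk Qbar (fun j => eval v (F j)) h2 := by
  obtain ⟨a, ha⟩ := Projectivization.exists_smul_eq_mk_rep Qbar v h
  have e : (fun j => eval (Projectivization.mk Qbar v h).rep (F j)) =
      (a : Qbar) ^ d • (fun j => eval v (F j)) := by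
    funext j
    rw [← ha]
    have : (a • v) = (a : Qbar) • v := rfl
    rw [this, hom_eval_smul (hF j)]
    rfl
  have h2 : (fun j => eval v (F j)) ≠ 0 := by
    intro h3
    rw [e, h3, smul_zero] at h1
    exact h1 rfl
  refine ⟨h2, ?_⟩
  rw [Projectivization.mk_eq_mk_iff']
  exact ⟨(a : Qbar) ^ d, e.symm⟩

end basic

section cover

variable {n m : ℕ}

/-- on the open set `H ≠ 0` the map `φ` is given by forms -/
def Good (Z X : Set (PP n)) (φ : X → PP m) (H : MvPolynomial (Fin (n + 1)) Qbar) : Prop :=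
  (∃ e : ℕ, H.IsHomogeneous e) ∧ (∀ Q ∈ Z, eval Q.rep H ≠ 0 → Q ∈ X) ∧
    ∃ (d : ℕ) (F : Fin (m + 1) → MvPolynomial (Fin (n + 1)) Qbar), (∀ j, (F j).IsHomogeneous d) ∧
      ∀ Q : X, eval (Q : PP n).rep H ≠ 0 → ∃ h : (fun j => eval (Q : PP n).rep (F j)) ≠ 0,
        φ Q = Projectivization.mk Qbar (fun j => eval (Q : PP n).rep (F j)) h

lemma finite_cover (Z W : Set (PP n)) (hW : IsZariskiClosed W) (φ : ↥(Z \ W) → PP m)
    (hφ : IsRegularMap (Z \ W) φ) :
    ∃ t : Finset (MvPolynomial (Fin (n + 1)) Qbar), (∀ H ∈ t, Good Z (Z \ W) φ H) ∧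
      ∀ Q ∈ Z \ W, ∃ H ∈ t, eval Q.rep H ≠ 0 := by
  have hfg : (Submodule.span (MvPolynomial (Fin (n + 1)) Qbar)
      {H | Good Z (Z \ W) φ H}).FG := IsNoetherian.noetherian _
  rw [Submodule.fg_span_iff_fg_span_finset_subset] at hfg
  obtain ⟨t, ht, hspan⟩ := hfg
  refine ⟨t, fun H hH => ht hH, fun Q hQ => ?_⟩
  by_contra hcon
  push Not at hcon
  obtain ⟨S2, hS2, hW2⟩ := hW
  obtain ⟨V, d, F, ⟨S3, hS3, hV⟩, hQV, hF, hφQ⟩ := hφ ⟨Q, hQ⟩
  have hQW : Q ∉ W := hQ.2
  rw [hW2] at hQW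
  rw [hV] at hQV
  simp only [Set.mem_ofPred_eq, not_forall] at hQW hQV
  obtain ⟨A, hA, hAQ⟩ := hQW
  obtain ⟨B, hB, hBQ⟩ := hQV
  obtain ⟨a, ha⟩ := hS2 A hA
  obtain ⟨b, hb⟩ := hS3 B hB
  have hgood : Good Z (Z \ W) φ (A * B) := by
    refine ⟨⟨a + b, ha.mul hb⟩, fun Q' hQ' hne => ⟨hQ', ?_⟩, d, F, hF, fun Q' hne => hφQ Q' ?_⟩
    · rw [map_mul] at hne
      rw [hW2]
      intro h
      exact (left_ne_zero_of_mul hne) (h A hA)
    · rw [map_mul] at hne
      rw [hV]
      intro h
      exact (right_ne_zero_of_mul hne) (h B hB)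
  have hmem : A * B ∈ Submodule.span (MvPolynomial (Fin (n + 1)) Qbar)
      (t : Set (MvPolynomial (Fin (n + 1)) Qbar)) := by
    rw [← hspan]
    exact Submodule.subset_span hgood
  have hle : Submodule.span (MvPolynomial (Fin (n + 1)) Qbar)
      (t : Set (MvPolynomial (Fin (n + 1)) Qbar)) ≤ RingHom.ker (eval Q.rep) := by
    rw [Submodule.span_le]
    intro H hH
    exact hcon H hH
  have := hle hmem
  rw [RingHom.mem_ker, map_mul] at this
  rcases mul_eq_zero.1 this with h | h
  · exact hAQ h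
  · exact hBQ h

end cover

/-- **Heights and regular maps.** -/
theorem height_regular_le {n m : ℕ} {X : Set (PP n)} (hX : IsQuasiProjective X) {φ : X → PP m}
    (hφ : IsRegularMap X φ) :
    ∃ c c' : ℝ, 0 < c ∧ 0 ≤ c' ∧ ∀ x : X, height (φ x) ≤ c * height (x : PP n) + c' := by
  classical
  obtain ⟨Z, W, hZ, hW, rfl⟩ := hX
  obtain ⟨t, hgd, hcov⟩ := finite_cover Z W hW φ hφ
  have h1 : ∀ H : MvPolynomial (Fin (n + 1)) Qbar, ∃ c c' : ℝ, 0 ≤ c ∧ 0 ≤ c' ∧ (H ∈ t →
      ∀ x : ↥(Z \ W), eval (x : PP n).rep H ≠ 0 → height (φ x) ≤ c * height (x : PP n) + c') := by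
    intro H
    by_cases hH : H ∈ t
    · obtain ⟨-, -, d, F, hF, hφF⟩ := hgd H hH
      obtain ⟨C, hC⟩ := absLogHeight_eval d F hF
      refine ⟨d, |C|, Nat.cast_nonneg _, abs_nonneg _, fun _ x hx => ?_⟩
      obtain ⟨h, hh⟩ := hφF x hx
      rw [hh, height_mk]
      have := hC (x : PP n).rep
      have h2 := le_abs_self C
      unfold height
      linarith
    · exact ⟨0, 0, le_rfl, le_rfl, fun h => absurd h hH⟩
  choose c c' hc hc' h2 using h1
  refine ⟨∑ H ∈ t, c H + 1, ∑ H ∈ t, c' H, ?_, Finset.sum_nonneg fun H _ => hc' H, fun x => ?_⟩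
  · have := Finset.sum_nonneg (s := t) (f := c) fun H _ => hc H
    linarith
  · obtain ⟨H, hH, hx⟩ := hcov x x.2
    have h3 := h2 H hH x hx
    have h4 : c H ≤ ∑ H ∈ t, c H := Finset.single_le_sum (f := c) (fun H _ => hc H) hH
    have h5 : c' H ≤ ∑ H ∈ t, c' H := Finset.single_le_sum (f := c') (fun H _ => hc' H) hH
    have h6 := height_nonneg (x : PP n)
    nlinarith

section lift

variable {n m : ℕ}

/-- the system describing the points of a fibre -/
noncomputable def sys (S : Set (MvPolynomial (Fin (n + 1)) Qbar))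
    (F : Fin (m + 1) → MvPolynomial (Fin (n + 1)) Qbar) (i : Fin (n + 1)) (l : Fin (m + 1)) :
    Set (MvPolynomial (Fin (m + 1) ⊕ Fin (n + 1)) Qbar) :=
  {p | (∃ f ∈ S, p = rename Sum.inr f) ∨ p = X (Sum.inr i) - 1 ∨
    ∃ j, p = rename Sum.inr (F j) - rename Sum.inr (F l) * X (Sum.inl j)}

lemma solAt_iff (S : Set (MvPolynomial (Fin (n + 1)) Qbar))
    (F : Fin (m + 1) → MvPolynomial (Fin (n + 1)) Qbar) (i : Fin (n + 1)) (l : Fin (m + 1))
    (H : MvPolynomial (Fin (n + 1)) Qbar) (y : Fin (m + 1) → Qbar) (x : Fin (n + 1) → Qbar) :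
    SolAt (sys S F i l) (rename Sum.inr (H * F l)) y x ↔
      (∀ f ∈ S, eval x f = 0) ∧ x i = 1 ∧ (∀ j, eval x (F j) = eval x (F l) * y j) ∧
        eval x H ≠ 0 ∧ eval x (F l) ≠ 0 := by
  have hr : ∀ f : MvPolynomial (Fin (n + 1)) Qbar,
      eval (Sum.elim y x) (rename Sum.inr f) = eval x f := by
    intro f
    rw [eval_rename]
    congr 1
  constructor
  · rintro ⟨h1, h2⟩
    rw [hr, map_mul] at h2
    refine ⟨fun f hf => ?_, ?_, fun j => ?_, left_ne_zero_of_mul h2, right_ne_zero_of_mul h2⟩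
    · have := h1 _ (Or.inl ⟨f, hf, rfl⟩)
      rwa [hr] at this
    · have := h1 _ (Or.inr (Or.inl rfl))
      simpa [sub_eq_zero] using this
    · have := h1 _ (Or.inr (Or.inr ⟨j, rfl⟩))
      rw [map_sub, map_mul, hr, hr, eval_X] at this
      simpa [sub_eq_zero] using this
  · rintro ⟨h1, h2, h3, h4, h5⟩
    refine ⟨?_, ?_⟩
    · rintro p (⟨f, hf, rfl⟩ | rfl | ⟨j, rfl⟩)
      · rw [hr]
        exact h1 f hf
      · simp [h2]
      · rw [map_sub, map_mul, hr, hr, eval_X, h3 j]
        simp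
    · rw [hr, map_mul]
      exact mul_ne_zero h4 h5

end lift

/-- **Points of small height in the fibres of a regular map.** -/
theorem exists_small_in_fibre {n m : ℕ} {X : Set (PP n)} (hX : IsQuasiProjective X) {φ : X → PP m}
    (hφ : IsRegularMap X φ) :
    ∃ c c' : ℝ, 0 < c ∧ 0 ≤ c' ∧ ∀ x : X, ∃ x' : X, φ x' = φ x ∧
      height (x' : PP n) ≤ c * height (φ x) + c' := by
  classical
  obtain ⟨Z, W, hZ, hW, rfl⟩ := hX
  obtain ⟨t, hgd, hcov⟩ := finite_cover Z W hW φ hφ
  obtain ⟨S, hS, hZS⟩ := hZ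
  have hmemZ : ∀ P : PP n, P ∈ Z ↔ ∀ F ∈ S, eval P.rep F = 0 := by
    intro P
    rw [hZS]
    rfl
  have h1 : ∀ H : MvPolynomial (Fin (n + 1)) Qbar, ∃ C : ℝ, 0 ≤ C ∧ (H ∈ t →
      ∀ x : ↥(Z \ W), eval (x : PP n).rep H ≠ 0 → ∃ x' : ↥(Z \ W), φ x' = φ x ∧
        height (x' : PP n) ≤ C * (1 + height (φ x))) := by
    intro H
    by_cases hH : H ∈ t
    · obtain ⟨⟨e, he⟩, hHX, d, F, hF, hφF⟩ := hgd H hH
      choose C hC0 hC using fun a : Fin (n + 1) × Fin (m + 1) =>
        affine_lift (sys S F a.1 a.2) (rename Sum.inr (H * F a.2))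
      have hsum : 0 ≤ ∑ a, C a := Finset.sum_nonneg fun a _ => hC0 a
      refine ⟨(n + 1) * (∑ a, C a) * (m + 1), by positivity, fun _ x hx => ?_⟩
      obtain ⟨i, v, hv, hvi, hxv⟩ := exists_norm (x : PP n)
      obtain ⟨h, hh⟩ := hφF x hx
      have hx' := hx
      rw [hxv, Ne, eval_rep_iff he] at hx'
      have hh' : ∃ h2 : (fun j => eval v (F j)) ≠ 0,
          φ x = Projectivization.mk Qbar (fun j => eval v (F j)) h2 := by
        have h3 : (fun j => eval (Projectivization.mk Qbar v hv).rep (F j)) ≠ 0 := by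
          rw [← hxv]
          exact h
        obtain ⟨h2, h4⟩ := mk_eval_eq hF v hv h3
        refine ⟨h2, ?_⟩
        rw [hh, ← h4]
        congr 1
        funext j
        rw [hxv]
      obtain ⟨h2, hφx⟩ := hh'
      obtain ⟨l, hl⟩ := Function.ne_iff.1 h2
      have hl' : eval v (F l) ≠ 0 := hl
      obtain ⟨y, hy⟩ : ∃ y : Fin (m + 1) → Qbar, y = fun j => (eval v (F l))⁻¹ * eval v (F j) :=
        ⟨_, rfl⟩
      have hyl : y l = 1 := by
        rw [hy]
        exact inv_mul_cancel₀ hl'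
      have hy0 : y ≠ 0 := by
        intro h3
        rw [h3] at hyl
        simp at hyl
      have hφy : φ x = Projectivization.mk Qbar y hy0 := by
        rw [hφx, Projectivization.mk_eq_mk_iff']
        refine ⟨eval v (F l), ?_⟩
        funext j
        rw [hy]
        simp only [Pi.smul_apply, smul_eq_mul]
        rw [mul_inv_cancel_left₀ hl']
      have hsol : SolAt (sys S F i l) (rename Sum.inr (H * F l)) y v := by
        rw [solAt_iff]
        refine ⟨fun f hf => ?_, hvi, fun j => ?_, hx', hl'⟩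
        · have h3 := x.2.1
          rw [hmemZ] at h3
          have h4 := h3 f hf
          rw [hxv] at h4
          obtain ⟨d', hd'⟩ := hS f hf
          exact (eval_rep_iff hd' v hv).1 h4
        · rw [hy]
          simp only
          rw [mul_inv_cancel_left₀ hl']
      obtain ⟨u, hu, hub⟩ := hC (i, l) y ⟨v, hsol⟩
      rw [solAt_iff] at hu
      obtain ⟨hu1, hu2, hu3, hu4, hu5⟩ := hu
      have hu0 : u ≠ 0 := by
        intro h3
        rw [h3] at hu2
        simp at hu2
      have huZ : Projectivization.mk Qbar u hu0 ∈ Z := by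
        rw [hmemZ]
        intro f hf
        obtain ⟨d', hd'⟩ := hS f hf
        exact (eval_rep_iff hd' u hu0).2 (hu1 f hf)
      have huH : eval (Projectivization.mk Qbar u hu0).rep H ≠ 0 := by
        rw [Ne, eval_rep_iff he]
        exact hu4
      have huX := hHX _ huZ huH
      refine ⟨⟨_, huX⟩, ?_, ?_⟩
      · obtain ⟨h3, h4⟩ := hφF ⟨_, huX⟩ huH
        obtain ⟨h5, h6⟩ := mk_eval_eq hF u hu0 h3
        rw [h4, hφy]
        have h7 : Projectivization.mk Qbar (fun j => eval (Projectivization.mk Qbar u hu0).rep (F j))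
            h3 = Projectivization.mk Qbar y hy0 := by
          rw [h6, Projectivization.mk_eq_mk_iff']
          refine ⟨eval u (F l), ?_⟩
          funext j
          simp only [Pi.smul_apply, smul_eq_mul]
          exact (hu3 j).symm
        exact h7
      · show height (Projectivization.mk Qbar u hu0) ≤ _
        rw [height_mk]
        have h3 := absLogHeight_le_sum u
        have h4 : ∀ j, ht (y j) ≤ height (φ x) := by
          intro j
          rw [hφy, height_mk]
          exact aff_le_of_eq_one y l hyl j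
        have h5 : ∑ j, ht (y j) ≤ (m + 1) * height (φ x) := by
          calc ∑ j, ht (y j) ≤ ∑ _j : Fin (m + 1), height (φ x) :=
                Finset.sum_le_sum fun j _ => h4 j
            _ = (m + 1) * height (φ x) := by simp
        have h6 : ∑ k, absLogHeight ![1, u k] ≤ (n + 1) * (C (i, l) * (1 + ∑ j, ht (y j))) := by
          calc ∑ k, absLogHeight ![1, u k] ≤
                ∑ _k : Fin (n + 1), C (i, l) * (1 + ∑ j, ht (y j)) :=
                Finset.sum_le_sum fun k _ => hub k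
            _ = _ := by simp
        have h7 : C (i, l) ≤ ∑ a, C a :=
          Finset.single_le_sum (f := C) (fun a _ => hC0 a) (Finset.mem_univ _)
        have h8 : 0 ≤ ∑ j, ht (y j) := Finset.sum_nonneg fun j _ => ht_nonneg _
        have h9 : C (i, l) * (1 + ∑ j, ht (y j)) ≤ (∑ a, C a) * ((m + 1) * (1 + height (φ x))) := by
          apply mul_le_mul h7 _ (by linarith) hsum
          have h10 : (0 : ℝ) ≤ m := Nat.cast_nonneg m
          nlinarith
        have h11 : (0 : ℝ) ≤ n + 1 := by positivity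
        calc absLogHeight u ≤ _ := h3
          _ ≤ _ := h6
          _ ≤ (n + 1) * ((∑ a, C a) * ((m + 1) * (1 + height (φ x)))) :=
              mul_le_mul_of_nonneg_left h9 h11
          _ = _ := by ring
    · exact ⟨0, le_rfl, fun h => absurd h hH⟩
  choose C hC h2 using h1
  have hsum : 0 ≤ ∑ H ∈ t, C H := Finset.sum_nonneg fun H _ => hC H
  refine ⟨∑ H ∈ t, C H + 1, ∑ H ∈ t, C H + 1, by linarith, by linarith, fun x => ?_⟩
  obtain ⟨H, hH, hx⟩ := hcov x x.2
  obtain ⟨x', hx1, hx2⟩ := h2 H hH x hx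
  refine ⟨x', hx1, hx2.trans ?_⟩
  have h4 : C H ≤ ∑ H ∈ t, C H := Finset.single_le_sum (f := C) (fun H _ => hC H) hH
  have h6 := height_nonneg (φ x)
  nlinarith

end Pool.Agent.K4H2.MH
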