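import Mathlib
import Pool.Agent.K4H2.MH.Proj

set_option autoImplicit false

/-!
# Comparable functions, projective embeddings and ample heights
-/

namespace Pool.Agent.K4H2.MH

open Pool.Agent.Helper259.AbsHt

/-- `A ≍ B`: there are `c₁, c₂ > 0` and `c₃, c₄` with `c₁ A - c₃ ≤ B ≤ c₂ A + c₄` -/
def Comparable {S : Type*} (A B : S → ℝ) : Prop :=
  ∃ c₁ c₂ c₃ c₄ : ℝ, 0 < c₁ ∧ 0 < c₂ ∧ ∀ s, c₁ * A s - c₃ ≤ B s ∧ B s ≤ c₂ * A s + c₄

/-- projective embeddings of a quasi-projective set: regular maps onto a quasi-projective set with a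
regular inverse -/
def IsProjEmbedding {n m : ℕ} (X : Set (PP n)) (i : X → PP m) : Prop :=
  IsRegularMap X i ∧ IsQuasiProjective (Set.range i) ∧
    ∃ r : ↥(Set.range i) → PP n, IsRegularMap (Set.range i) r ∧ ∀ x : X, r ⟨i x, x, rfl⟩ = x

/-- ample heights: up to a bounded function and a positive multiple, the pullback of the height under
a projective embedding -/
def IsAmpleHeight {n : ℕ} (X : Set (PP n)) (h : X → ℝ) : Prop :=
  ∃ (m : ℕ) (i : X → PP m), IsProjEmbedding X i ∧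
    ∃ c : ℝ, 0 < c ∧ ∃ B : ℝ, ∀ x, |h x - c * height (i x)| ≤ B

lemma comparable_symm {S : Type*} {A B : S → ℝ} (h : Comparable A B) : Comparable B A := by
  obtain ⟨c₁, c₂, c₃, c₄, h1, h2, h⟩ := h
  refine ⟨c₂⁻¹, c₁⁻¹, c₂⁻¹ * c₄, c₁⁻¹ * c₃, inv_pos.2 h2, inv_pos.2 h1, fun s => ?_⟩
  obtain ⟨h3, h4⟩ := h s
  constructor
  · rw [← mul_sub, inv_mul_le_iff₀ h2]
    linarith
  · rw [← mul_add, ← div_eq_inv_mul, le_div_iff₀ h1]
    linarith

lemma comparable_trans {S : Type*} {A B D : S → ℝ} (h : Comparable A B) (h' : Comparable B D) :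
    Comparable A D := by
  obtain ⟨c₁, c₂, c₃, c₄, h1, h2, h⟩ := h
  obtain ⟨d₁, d₂, d₃, d₄, k1, k2, k⟩ := h'
  refine ⟨d₁ * c₁, d₂ * c₂, d₁ * c₃ + d₃, d₂ * c₄ + d₄, mul_pos k1 h1, mul_pos k2 h2, fun s => ?_⟩
  obtain ⟨h3, h4⟩ := h s
  obtain ⟨k3, k4⟩ := k s
  constructor
  · have := mul_le_mul_of_nonneg_left h3 k1.le
    linarith
  · have := mul_le_mul_of_nonneg_left h4 k2.le
    linarith

/-- an ample height is comparable with the height of the given embedding -/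
lemma ample_comparable {n : ℕ} {X : Set (PP n)} (hX : IsQuasiProjective X) {h : X → ℝ}
    (hh : IsAmpleHeight X h) : Comparable (fun x : X => height (x : PP n)) h := by
  obtain ⟨m, i, ⟨hi, hq, r, hr, hri⟩, c, hc, B, hB⟩ := hh
  have h1 : Comparable (fun x : X => height (i x)) h := by
    refine ⟨c, c, B, B, hc, hc, fun x => ?_⟩
    have := abs_le.1 (hB x)
    constructor <;> linarith
  refine comparable_trans ?_ h1
  obtain ⟨c₁, d₁, hc₁, hd₁, h₁⟩ := height_regular_le hX hi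
  obtain ⟨c₂, d₂, hc₂, hd₂, h₂⟩ := height_regular_le hq hr
  refine ⟨c₂⁻¹, c₁, c₂⁻¹ * d₂, d₁, inv_pos.2 hc₂, hc₁, fun x => ⟨?_, h₁ x⟩⟩
  have h3 := h₂ ⟨i x, x, rfl⟩
  rw [hri x] at h3
  rw [← mul_sub, inv_mul_le_iff₀ hc₂]
  have h4 : height ((⟨i x, x, rfl⟩ : ↥(Set.range i)) : PP m) = height (i x) := rfl
  rw [h4] at h3
  linarith

/-- comparability passes to infima -/
lemma comparable_iInf {S T : Type*} (J : S → Type*) [∀ s, Nonempty (J s)] (f : ∀ s, J s → T)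
    {A B : T → ℝ} (h : Comparable A B) (hA : ∀ t, 0 ≤ A t) :
    Comparable (fun s => ⨅ j : J s, A (f s j)) (fun s => ⨅ j : J s, B (f s j)) := by
  obtain ⟨c₁, c₂, c₃, c₄, h1, h2, h⟩ := h
  refine ⟨c₁, c₂, c₃, c₄, h1, h2, fun s => ?_⟩
  have hbA : BddBelow (Set.range fun j : J s => A (f s j)) := ⟨0, by rintro _ ⟨j, rfl⟩; exact hA _⟩
  have hbB : BddBelow (Set.range fun j : J s => B (f s j)) := by
    refine ⟨-c₃, ?_⟩
    rintro _ ⟨j, rfl⟩
    have h3 := (h (f s j)).1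
    have h4 := mul_nonneg h1.le (hA (f s j))
    simp only
    linarith
  constructor
  · apply le_ciInf
    intro j
    have h3 := (h (f s j)).1
    have h4 : ⨅ j : J s, A (f s j) ≤ A (f s j) := ciInf_le hbA j
    have h5 := mul_le_mul_of_nonneg_left h4 h1.le
    linarith
  · have h3 : c₂⁻¹ * ((⨅ j : J s, B (f s j)) - c₄) ≤ ⨅ j : J s, A (f s j) := by
      apply le_ciInf
      intro j
      have h4 : ⨅ j : J s, B (f s j) ≤ B (f s j) := ciInf_le hbB j
      have h5 := (h (f s j)).2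
      rw [inv_mul_le_iff₀ h2]
      linarith
    rw [inv_mul_le_iff₀ h2] at h3
    linarith

/-- the comparison with the infimum over the fibre -/
lemma fibre_comparable {n m : ℕ} {X : Set (PP n)} (hX : IsQuasiProjective X) {φ : X → PP m}
    (hφ : IsRegularMap X φ) (J : X → Type*) (f : ∀ x, J x → X)
    (hf : ∀ x x', φ x' = φ x ↔ ∃ j : J x, f x j = x') :
    Comparable (fun x => height (φ x)) (fun x => ⨅ j : J x, height (f x j : PP n)) := by
  obtain ⟨c₁, d₁, hc₁, hd₁, h₁⟩ := height_regular_le hX hφ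
  obtain ⟨c₂, d₂, hc₂, hd₂, h₂⟩ := exists_small_in_fibre hX hφ
  refine ⟨c₁⁻¹, c₂, c₁⁻¹ * d₁, d₂, inv_pos.2 hc₁, hc₂, fun x => ⟨?_, ?_⟩⟩
  · have hne : Nonempty (J x) := by
      obtain ⟨j, -⟩ := (hf x x).1 rfl
      exact ⟨j⟩
    apply le_ciInf
    intro j
    have h3 : φ (f x j) = φ x := (hf x _).2 ⟨j, rfl⟩
    have h4 := h₁ (f x j)
    rw [h3] at h4
    rw [← mul_sub, inv_mul_le_iff₀ hc₁]
    linarith
  · obtain ⟨x', hx', hx2⟩ := h₂ x
    obtain ⟨j, rfl⟩ := (hf x x').1 hx'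
    have hb : BddBelow (Set.range fun j : J x => height (f x j : PP n)) :=
      ⟨0, by rintro _ ⟨j, rfl⟩; exact height_nonneg _⟩
    exact (ciInf_le hb j).trans hx2

end Pool.Agent.K4H2.MH
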