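import Mathlib
import Pool.Agent.K4H2.MH.Proj

set_option autoImplicit false

/-!
# The space of rational maps of degree `d` is quasi-projective
-/

namespace Pool.Agent.K4H2.MH

open MvPolynomial Pool.Agent.Helper259.AbsHt
open scoped LinearAlgebra.Projectivization

/-- the form `∑ a_i X^i Y^(d-i)` where `a_0, ..., a_d` are the first `d + 1` entries of `c` -/
noncomputable def num (d : ℕ) (c : Fin (2 * d + 1 + 1) → Qbar) (x y : Qbar) : Qbar :=
  ∑ i : Fin (d + 1), c ⟨i, by omega⟩ * x ^ (i : ℕ) * y ^ (d - i)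

/-- the form `∑ b_i X^i Y^(d-i)` where `b_0, ..., b_d` are the last `d + 1` entries of `c` -/
noncomputable def den (d : ℕ) (c : Fin (2 * d + 1 + 1) → Qbar) (x y : Qbar) : Qbar :=
  ∑ i : Fin (d + 1), c ⟨d + 1 + i, by omega⟩ * x ^ (i : ℕ) * y ^ (d - i)

/-- the space of rational maps of degree `d`: the coefficient vectors
`[a_0 : ... : a_d : b_0 : ... : b_d]` for which the two forms have no common zero on the
projective line -/
def RatMaps (d : ℕ) : Set (PP (2 * d + 1)) :=
  {P | ∀ x y : Qbar, num d P.rep x y = 0 → den d P.rep x y = 0 → x = 0 ∧ y = 0}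

/-- the map of the affine plane given by the two forms -/
noncomputable def evalMap (d : ℕ) (c : Fin (2 * d + 1 + 1) → Qbar) (v : Fin 2 → Qbar) :
    Fin 2 → Qbar :=
  ![num d c (v 0) (v 1), den d c (v 0) (v 1)]

/-- `Q` is the conjugate `φ⁻¹ ∘ P ∘ φ` of `P` by the linear fractional transformation `φ` -/
def IsConj (d : ℕ) (φ : GL (Fin 2) Qbar) (P Q : PP (2 * d + 1)) : Prop :=
  ∃ c : Qbar, c ≠ 0 ∧ ∀ v : Fin 2 → Qbar, evalMap d Q.rep v =
    c • ((φ⁻¹ : GL (Fin 2) Qbar) : Matrix (Fin 2) (Fin 2) Qbar).mulVec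
      (evalMap d P.rep ((φ : Matrix (Fin 2) (Fin 2) Qbar).mulVec v))

section resultant

variable {R : Type*} [CommRing R]

/-- the dehomogenised first form -/
noncomputable def pA (d : ℕ) (c : Fin (2 * d + 1 + 1) → R) : Polynomial R :=
  ∑ i : Fin (d + 1), Polynomial.monomial (i : ℕ) (c ⟨i, by omega⟩)

/-- the dehomogenised second form -/
noncomputable def pB (d : ℕ) (c : Fin (2 * d + 1 + 1) → R) : Polynomial R :=
  ∑ i : Fin (d + 1), Polynomial.monomial (i : ℕ) (c ⟨d + 1 + i, by omega⟩)

lemma pA_coeff (d : ℕ) (c : Fin (2 * d + 1 + 1) → R) (k : ℕ) :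
    (pA d c).coeff k = if h : k < d + 1 then c ⟨k, by omega⟩ else 0 := by
  unfold pA
  rw [Polynomial.finsetSum_coeff]
  simp only [Polynomial.coeff_monomial]
  split_ifs with h
  · rw [Finset.sum_eq_single (⟨k, h⟩ : Fin (d + 1))]
    · simp
    · intro b _ hb
      rw [if_neg]
      intro h'
      exact hb (Fin.ext h')
    · intro h'
      exact absurd (Finset.mem_univ _) h'
  · apply Finset.sum_eq_zero
    intro i _
    rw [if_neg]
    have := i.2
    omega

lemma pB_coeff (d : ℕ) (c : Fin (2 * d + 1 + 1) → R) (k : ℕ) :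
    (pB d c).coeff k = if h : k < d + 1 then c ⟨d + 1 + k, by omega⟩ else 0 := by
  unfold pB
  rw [Polynomial.finsetSum_coeff]
  simp only [Polynomial.coeff_monomial]
  split_ifs with h
  · rw [Finset.sum_eq_single (⟨k, h⟩ : Fin (d + 1))]
    · simp
    · intro b _ hb
      rw [if_neg]
      intro h'
      exact hb (Fin.ext h')
    · intro h'
      exact absurd (Finset.mem_univ _) h'
  · apply Finset.sum_eq_zero
    intro i _
    rw [if_neg]
    have := i.2
    omega

lemma pA_map {S : Type*} [CommRing S] (f : R →+* S) (d : ℕ) (c : Fin (2 * d + 1 + 1) → R) :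
    (pA d c).map f = pA d (fun i => f (c i)) := by
  simp [pA, Polynomial.map_sum]

lemma pB_map {S : Type*} [CommRing S] (f : R →+* S) (d : ℕ) (c : Fin (2 * d + 1 + 1) → R) :
    (pB d c).map f = pB d (fun i => f (c i)) := by
  simp [pB, Polynomial.map_sum]

lemma pA_deg (d : ℕ) (c : Fin (2 * d + 1 + 1) → R) : (pA d c).natDegree ≤ d := by
  rw [Polynomial.natDegree_le_iff_coeff_eq_zero]
  intro k hk
  rw [pA_coeff, dif_neg (by omega)]

lemma pB_deg (d : ℕ) (c : Fin (2 * d + 1 + 1) → R) : (pB d c).natDegree ≤ d := by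
  rw [Polynomial.natDegree_le_iff_coeff_eq_zero]
  intro k hk
  rw [pB_coeff, dif_neg (by omega)]

end resultant

lemma num_eq (d : ℕ) (c : Fin (2 * d + 1 + 1) → Qbar) (x y : Qbar) (hy : y ≠ 0) :
    num d c x y = y ^ d * (pA d c).eval (x / y) := by
  unfold num pA
  rw [Polynomial.eval_finsetSum, Finset.mul_sum]
  refine Finset.sum_congr rfl fun i _ => ?_
  rw [Polynomial.eval_monomial, div_pow]
  have : y ^ d = y ^ (d - i) * y ^ (i : ℕ) := by
    rw [← pow_add, Nat.sub_add_cancel (Nat.lt_succ_iff.1 i.2)]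
  rw [this]
  field_simp

lemma den_eq (d : ℕ) (c : Fin (2 * d + 1 + 1) → Qbar) (x y : Qbar) (hy : y ≠ 0) :
    den d c x y = y ^ d * (pB d c).eval (x / y) := by
  unfold den pB
  rw [Polynomial.eval_finsetSum, Finset.mul_sum]
  refine Finset.sum_congr rfl fun i _ => ?_
  rw [Polynomial.eval_monomial, div_pow]
  have : y ^ d = y ^ (d - i) * y ^ (i : ℕ) := by
    rw [← pow_add, Nat.sub_add_cancel (Nat.lt_succ_iff.1 i.2)]
  rw [this]
  field_simp

lemma num_zero (d : ℕ) (c : Fin (2 * d + 1 + 1) → Qbar) (x : Qbar) :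
    num d c x 0 = (pA d c).coeff d * x ^ d := by
  unfold num
  rw [pA_coeff, dif_pos (by omega), Finset.sum_eq_single (Fin.last d)]
  · simp
  · intro i _ hi
    have h1 : (i : ℕ) ≠ d := fun h => hi (Fin.ext h)
    have h2 := i.2
    rw [zero_pow (by omega), mul_zero]
  · intro h
    exact absurd (Finset.mem_univ _) h

lemma den_zero (d : ℕ) (c : Fin (2 * d + 1 + 1) → Qbar) (x : Qbar) :
    den d c x 0 = (pB d c).coeff d * x ^ d := by
  unfold den
  rw [pB_coeff, dif_pos (by omega), Finset.sum_eq_single (Fin.last d)]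
  · simp
  · intro i _ hi
    have h1 : (i : ℕ) ≠ d := fun h => hi (Fin.ext h)
    have h2 := i.2
    rw [zero_pow (by omega), mul_zero]
  · intro h
    exact absurd (Finset.mem_univ _) h

/-- coprimality from the absence of common roots -/
lemma coprime_iff (f g : Polynomial Qbar) (h : f ≠ 0 ∨ g ≠ 0) :
    IsCoprime f g ↔ ∀ x : Qbar, f.eval x = 0 → g.eval x ≠ 0 := by
  classical
  constructor
  · rintro ⟨a, b, hab⟩ x hf hg
    have := congrArg (Polynomial.eval x) hab
    simp [hf, hg] at this
  · intro h1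
    rw [← EuclideanDomain.gcd_isUnit_iff]
    by_contra hu
    have hne : EuclideanDomain.gcd f g ≠ 0 := by
      intro h2
      rw [EuclideanDomain.gcd_eq_zero_iff] at h2
      rcases h with h | h
      · exact h h2.1
      · exact h h2.2
    have hdeg : (EuclideanDomain.gcd f g).degree ≠ 0 := by
      intro h2
      exact hu (Polynomial.isUnit_iff_degree_eq_zero.2 h2)
    obtain ⟨x, hx⟩ := IsAlgClosed.exists_root _ hdeg
    obtain ⟨a, ha⟩ := EuclideanDomain.gcd_dvd_left f g
    obtain ⟨b, hb⟩ := EuclideanDomain.gcd_dvd_right f g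
    have hx' : (EuclideanDomain.gcd f g).eval x = 0 := hx
    refine h1 x ?_ ?_
    · rw [ha, Polynomial.eval_mul, hx', zero_mul]
    · rw [hb, Polynomial.eval_mul, hx', zero_mul]

lemma res_iff (d : ℕ) (hd : 0 < d) (c : Fin (2 * d + 1 + 1) → Qbar) :
    Polynomial.resultant (pA d c) (pB d c) d d ≠ 0 ↔
      ∀ x y : Qbar, num d c x y = 0 → den d c x y = 0 → x = 0 ∧ y = 0 := by
  have hA := pA_deg d c
  have hB := pB_deg d c
  by_cases h1 : (pA d c).coeff d = 0 ∧ (pB d c).coeff d = 0
  · have hA' : (pA d c).natDegree < d := by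
      refine lt_of_le_of_ne hA fun h => ?_
      have h2 : (pA d c).leadingCoeff = 0 := by
        rw [Polynomial.leadingCoeff, h]
        exact h1.1
      rw [Polynomial.leadingCoeff_eq_zero] at h2
      rw [h2] at h
      simp at h
      omega
    have hB' : (pB d c).natDegree < d := by
      refine lt_of_le_of_ne hB fun h => ?_
      have h2 : (pB d c).leadingCoeff = 0 := by
        rw [Polynomial.leadingCoeff, h]
        exact h1.2
      rw [Polynomial.leadingCoeff_eq_zero] at h2
      rw [h2] at h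
      simp at h
      omega
    rw [Polynomial.resultant_eq_zero_of_lt_lt _ _ _ _ hA' hB']
    simp only [ne_eq, not_true_eq_false, false_iff, not_forall]
    refine ⟨1, 0, ?_, ?_, ?_⟩
    · rw [num_zero, h1.1, zero_mul]
    · rw [den_zero, h1.2, zero_mul]
    · simp
  · -- one of the leading coefficients is non-zero
    have hcop : Polynomial.resultant (pA d c) (pB d c) d d ≠ 0 ↔
        Polynomial.resultant (pA d c) (pB d c) ≠ 0 := by
      by_cases hA0 : (pA d c).coeff d = 0
      · have hB0 : (pB d c).coeff d ≠ 0 := fun h => h1 ⟨hA0, h⟩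
        have hBd : (pB d c).natDegree = d := by
          refine le_antisymm hB (Polynomial.le_natDegree_of_ne_zero hB0)
        obtain ⟨k, hk⟩ := Nat.exists_eq_add_of_le hA
        have h2 := Polynomial.resultant_add_left_deg (pA d c) (pB d c) (pA d c).natDegree d k le_rfl
        rw [← hk] at h2
        rw [h2, hBd]
        simp [hB0]
      · have hAd : (pA d c).natDegree = d := by
          refine le_antisymm hA (Polynomial.le_natDegree_of_ne_zero hA0)
        obtain ⟨k, hk⟩ := Nat.exists_eq_add_of_le hB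
        have h2 := Polynomial.resultant_add_right_deg (pA d c) (pB d c) d (pB d c).natDegree k le_rfl
        rw [← hk] at h2
        rw [h2, hAd]
        simp [hA0]
    have hne : pA d c ≠ 0 ∨ pB d c ≠ 0 := by
      by_contra h2
      push Not at h2
      apply h1
      rw [h2.1, h2.2]
      simp
    rw [hcop, Ne, Polynomial.resultant_eq_zero_iff]
    have h3 : (¬((pA d c ≠ 0 ∨ pB d c ≠ 0) ∧ ¬IsCoprime (pA d c) (pB d c))) ↔
        IsCoprime (pA d c) (pB d c) := by
      tauto
    rw [h3, coprime_iff _ _ hne]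
    constructor
    · intro h x y hx hy
      by_cases hy0 : y = 0
      · subst hy0
        refine ⟨?_, rfl⟩
        rw [num_zero] at hx
        rw [den_zero] at hy
        by_contra hx0
        apply h1
        have hxd : x ^ d ≠ 0 := pow_ne_zero _ hx0
        exact ⟨(mul_eq_zero.1 hx).resolve_right hxd, (mul_eq_zero.1 hy).resolve_right hxd⟩
      · exfalso
        rw [num_eq d c x y hy0] at hx
        rw [den_eq d c x y hy0] at hy
        have hyd : y ^ d ≠ 0 := pow_ne_zero _ hy0
        exact h (x / y) ((mul_eq_zero.1 hx).resolve_left hyd) ((mul_eq_zero.1 hy).resolve_left hyd)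
    · intro h x hx hy
      have h4 := h x 1 (by rw [num_eq d c x 1 one_ne_zero]; simp [hx])
        (by rw [den_eq d c x 1 one_ne_zero]; simp [hy])
      exact one_ne_zero h4.2

/-- the resultant of the two forms, as a polynomial in the coefficients -/
noncomputable def resForm (d : ℕ) : MvPolynomial (Fin (2 * d + 1 + 1)) Qbar :=
  Polynomial.resultant (pA d X) (pB d X) d d

lemma resForm_eval (d : ℕ) (c : Fin (2 * d + 1 + 1) → Qbar) :
    eval c (resForm d) = Polynomial.resultant (pA d c) (pB d c) d d := by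
  have h := Polynomial.resultant_map_map (pA d (X : Fin (2 * d + 1 + 1) →
    MvPolynomial (Fin (2 * d + 1 + 1)) Qbar)) (pB d X) d d (eval c)
  have e : (fun i => eval c (X i : MvPolynomial (Fin (2 * d + 1 + 1)) Qbar)) = c := by
    funext i
    rw [eval_X]
  rw [pA_map, pB_map, e] at h
  exact h.symm

lemma det_hom {σ : Type*} (N : ℕ) (A : Matrix (Fin N) (Fin N) (MvPolynomial σ Qbar))
    (hA : ∀ i j, (A i j).IsHomogeneous 1) : A.det.IsHomogeneous N := by
  rw [Matrix.det_apply]
  apply IsHomogeneous.sum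
  intro s _
  have h1 : (∏ i, A (s i) i).IsHomogeneous N := by
    have h2 := IsHomogeneous.prod (Finset.univ : Finset (Fin N)) (fun i => A (s i) i) (fun _ => 1)
      (fun i _ => hA _ _)
    simpa using h2
  rcases Int.units_eq_one_or (Equiv.Perm.sign s) with h | h
  · rw [h, one_smul]
    exact h1
  · rw [h, Units.neg_smul, one_smul]
    exact h1.neg

lemma resForm_hom (d : ℕ) : (resForm d).IsHomogeneous (d + d) := by
  unfold resForm Polynomial.resultant
  apply det_hom
  intro i j
  have hA : ∀ k, ((pA d (X : Fin (2 * d + 1 + 1) → MvPolynomial (Fin (2 * d + 1 + 1)) Qbar)).coeff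
      k).IsHomogeneous 1 := by
    intro k
    rw [pA_coeff]
    split_ifs
    · exact isHomogeneous_X _ _
    · exact isHomogeneous_zero _ _ _
  have hB : ∀ k, ((pB d (X : Fin (2 * d + 1 + 1) → MvPolynomial (Fin (2 * d + 1 + 1)) Qbar)).coeff
      k).IsHomogeneous 1 := by
    intro k
    rw [pB_coeff]
    split_ifs
    · exact isHomogeneous_X _ _
    · exact isHomogeneous_zero _ _ _
  unfold Polynomial.sylvester
  rw [Matrix.of_apply]
  refine Fin.addCases (fun j => ?_) (fun j => ?_) j
  · rw [Fin.addCases_left]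
    split_ifs
    · exact hB _
    · exact isHomogeneous_zero _ _ _
  · rw [Fin.addCases_right]
    split_ifs
    · exact hA _
    · exact isHomogeneous_zero _ _ _

/-- the space of rational maps is quasi-projective -/
theorem ratMaps_quasiProjective (d : ℕ) (hd : 0 < d) : IsQuasiProjective (RatMaps d) := by
  refine ⟨Set.univ, {P | ∀ F ∈ ({resForm d} : Set _), eval P.rep F = 0}, ?_, ?_, ?_⟩
  · exact ⟨∅, by simp, by simp⟩
  · exact ⟨{resForm d}, fun F hF => ⟨d + d, by rw [Set.mem_singleton_iff.1 hF]; exact resForm_hom d⟩,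
      rfl⟩
  · ext P
    have h1 : P ∈ RatMaps d ↔ Polynomial.resultant (pA d P.rep) (pB d P.rep) d d ≠ 0 :=
      (res_iff d hd P.rep).symm
    rw [h1, ← resForm_eval]
    constructor
    · intro h
      exact ⟨trivial, fun h2 => h (h2 _ rfl)⟩
    · rintro ⟨-, h2⟩ h
      apply h2
      intro F hF
      rw [Set.mem_singleton_iff.1 hF]
      exact h

end Pool.Agent.K4H2.MH
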